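import Pool.Agent.T9h73.TN.Stm
import Pool.Agent.T9h73.TN.Main
import Pool.Agent.T9h73.TN.Fam
import Pool.Agent.N76.LP.All
set_option autoImplicit false

/-!
Beilinson's conjecture for `K_2^(2)` of hyperelliptic curves over number fields with two torsion
pairs: after a finite extension `L` of the number field, the regulator of the *integral* elements
of `K_2` is surjective onto the Deligne cohomology `H¹(X_s(ℂ), ℝ(1))` (of dimension `2 g`) at an
embedding `s` of `L` over a given complex embedding of the number field.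
-/

namespace Pool.Agent.Results.MP_4a177b_nt.TwoTorsionPairs

open Polynomial

open Pool.Agent.TH826.MK (KQ symb Torus Unramified)

open Pool.Agent.Y94.R

open Pool.Agent.T9h73.TP (sy reg_sy Un Sp rhoU zU off_root)

open Pool.Agent.T9h73.TN

/-- Part 1. Let `K` be a number field, and let `D`, `P`, `Q`, `A`, `B` be polynomials over `K` with
the property `TwoPairs g k D P Q A B`: `D` is squarefree of degree `2 g + 2`, `P² - D Q² = 1` with
`P` not constant, `A² - D B² = x ^ (2 k)`, `k > 0`, `deg A ≤ k`, `A(0) ≠ 0`, the polynomials `2 P`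
and `2 A` have integral coefficients, and the leading coefficient of `2 P` and the constant
coefficient of `2 A` are units of the ring of algebraic integers. So the functions
`z₁ = P(x) + Q(x) y` and `z₂ = (A(x) + B(x) y) / x ^ k` on the smooth projective model `X` of the
curve `y² = D(x)` have the divisors `± deg(P) (∞₊ - ∞₋)` and `± k (0₊ - 0₋)`. Let `σ` be an
embedding of `K` in `ℂ`.

There are `2 g` loops `γ_l = (x_l, y_l)` in the complex points of the curve over `σ` with `y_l ≠ 0`
and `x_l ≠ 0` whose period vectors `(∫ x^j dx / y)_{j < g}` are linearly independent over `ℝ`.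

Let `γ_l`, `1 ≤ l ≤ m`, be any loops with these properties (for example `m = 2 g`). Then there are
a number field `L` over `K`, an embedding `s` of `L` in `ℂ` that extends `σ`, a root `b_1 ∈ L` of
`D` and, for `0 ≤ i < m`, elements `b_(i+2) ≠ 0` of `L` and integers `p_i`, `q_i`, such that the
elements
`S_i = p_i {z₁, h_i} + q_i {z₂, h_i / h_i(0)}`, `h_i = (x - b_(i+2)) / (x - b_1)`,
are unramified at *all* discrete valuations of the function field of `X` over `L`, and such that the
`m` vectors `(reg_(γ_l) S_i)_l` of the regulators of the `S_i` on the loops, in the complex points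
over `s`, are linearly independent over `ℝ`. The coordinate ring of the curve over `L` is a domain,
and the curve is smooth at its complex points over all embeddings of `L`.

Part 2. For all `g` and all algebraic integers `a ∈ K` such that `a² - 4` is the square of a unit
`s` (that is, `a = α + 1/α` with a unit `α` such that `α - 1/α` is a unit) the polynomial
`D = (x ^ (g + 1) + a)² - 4` has the property of part 1; for example `K = ℚ(√5)`, `a = √5`, `s = 1`,
`D = x ^ (2 g + 2) + 2 √5 x ^ (g + 1) + 1`. -/
theorem result.{u, w} :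
    (∀ (g k : ℕ) (K : Type u) [Field K] [NumberField K] (D P Q A B : K[X]),
      TwoPairs g k D P Q A B → ∀ σ : K →+* ℂ,
      (∃ γ : Fin (2 * g) → Lp (D.map σ), GoodLoops g γ) ∧
      ∀ (m : ℕ) (γ : Fin m → Lp (D.map σ)), GoodLoops g γ →
        ∃ (L : Type) (_ : Field L) (_ : NumberField L) (ι : K →+* L) (s : L →+* ℂ),
          s.comp ι = σ ∧
          ∃ (hPQ : P.map ι ^ 2 - D.map ι * Q.map ι ^ 2 = 1)
            (hAB : A.map ι ^ 2 - D.map ι * B.map ι ^ 2 = X ^ (2 * k))
            (b : Fin (m + 2) → L) (h0 : b 0 = 0) (p q : Fin m → ℤ),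
            (D.map ι).eval (b 1) = 0 ∧ (∀ i : Fin m, b i.succ.succ ≠ 0) ∧
            IsDomain (HRing (D.map ι)) ∧ SmoothCurve (D.map ι) ∧
            UnramifiedSymbols.{0, w} hPQ hAB b h0 p q ∧
            IndependentRegulators hPQ hAB b h0 p q s (fun l => (γ l).x) (fun l => (γ l).y)) ∧
    (∀ (g : ℕ) (K : Type u) [Field K] [NumberField K] (a s : K), IsIntegral ℤ a →
      IsIntegral ℤ s → IsIntegral ℤ s⁻¹ → s ≠ 0 → s ^ 2 = a ^ 2 - 4 →
      ∃ P Q A B : K[X], TwoPairs g (g + 1) ((X ^ (g + 1) + C a) ^ 2 - C 4) P Q A B) := by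
  refine ⟨?_, fun g K _ _ a s ha hs hs' hs0 has => ⟨_, _, _, _, family g ha hs hs' hs0 has⟩⟩
  intro g k K _ _ D P Q A B h σ
  have hσ := h.map σ
  constructor
  · obtain ⟨γ, hγ1, hγ2, -⟩ := Pool.Agent.N76.LP.exists_loops (P := P.map σ) (r := X) hσ.sqf
      hσ.degD hσ.degP X_ne_zero
    exact ⟨γ, hγ1, fun l t => by simpa using hγ2 l t⟩
  · intro m γ hγgood
    obtain ⟨hind, hx⟩ := hγgood
    obtain ⟨L, _, _, ι, s, hs, β, b', p, q, hβ, hspβ, hspb, hβu, hbu, hoff, hli⟩ :=
      exists_special h σ γ hind hx
    have hι := h.map ι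
    have hβ0 : β ≠ 0 := by
      rintro rfl
      have h1 := congrArg (Polynomial.eval 0) hι.eqA
      have h2 := hι.pos
      simp only [eval_sub, eval_mul, eval_pow, eval_X, hβ, zero_mul, sub_zero] at h1
      rw [zero_pow (by omega)] at h1
      exact hι.neA (pow_eq_zero_iff two_ne_zero |>.1 h1)
    obtain ⟨b, hb⟩ : ∃ b : Fin (m + 2) → L, b = Fin.cons 0 (Fin.cons β b') := ⟨_, rfl⟩
    have h0 : b 0 = 0 := by rw [hb, Fin.cons_zero]
    have h1 : b 1 = β := by
      rw [hb, show (1 : Fin (m + 2)) = (0 : Fin (m + 1)).succ from rfl, Fin.cons_succ,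
        Fin.cons_zero]
    have h2 : ∀ i : Fin m, b i.succ.succ = b' i := fun i => by
      rw [hb, Fin.cons_succ, Fin.cons_succ]
    have hmap : ∀ R : K[X], (R.map ι).map s = R.map σ := fun R => by
      rw [Polynomial.map_map, hs]
    obtain ⟨γ', hγ'⟩ : ∃ γ' : Fin m → Lp ((D.map ι).map s), γ' = fun l =>
        ⟨(γ l).x, (γ l).y, (γ l).contDiff_x, (γ l).contDiff_y, (γ l).periodic_x,
          (γ l).periodic_y, by rw [hmap]; exact (γ l).eq, (γ l).ne⟩ := ⟨_, rfl⟩
    have hroot : (D.map σ).eval (s β) = 0 := by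
      rw [← hmap, eval_map, eval₂_hom, hβ, map_zero]
    have hoff' : ∀ l k, (γ' l).Off (s (b k)) := by
      intro l k
      rw [hγ']
      refine Fin.cases ?_ (fun k => Fin.cases ?_ (fun k => ?_) k) k
      · rw [h0, map_zero]
        intro t
        rw [sub_zero]
        exact hx l t
      · change Lp.Off _ (s (b 1))
        rw [h1]
        exact off_root (γ l) hroot
      · rw [h2]
        exact hoff k l
    have hbi0 : ∀ i : Fin m, b i.succ.succ ≠ 0 := fun i => by
      rw [h2]
      exact (hspb i).1
    obtain ⟨r, hr⟩ := exists_r hι.eqP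
    obtain ⟨t, ht⟩ := exists_s hι.eqA hι.pos hι.neA
    have hp : Pell ((D.map ι).map s) ((P.map ι).map s) ((Q.map ι).map s) (r.map s) := by
      refine ⟨(hι.map s).eqP, ?_, (hι.map s).degP⟩
      rw [derivative_map, hr, Polynomial.map_mul]
    have hu : Un ((D.map ι).map s) ((A.map ι).map s) ((B.map ι).map s) (t.map s) k := by
      refine ⟨(hι.map s).eqA, ?_, hι.pos, (hι.map s).neA⟩
      have h3 := congrArg (Polynomial.map s) ht
      rw [Polynomial.map_sub, Polynomial.map_mul, Polynomial.map_mul, Polynomial.map_mul, map_X,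
        map_C, map_natCast s k] at h3
      rw [derivative_map]
      exact h3
    refine ⟨L, inferInstance, inferInstance, ι, s, hs, hι.eqP, hι.eqA, b, h0, p, q,
      by rw [h1]; exact hβ, hbi0, isDomain_HRing hι.sqf (by rw [hι.degD]; omega), ?_, ?_, ?_⟩
    · intro τ x y hxy
      by_contra hcon
      push Not at hcon
      obtain ⟨h3, h4⟩ := hcon
      have h5 : y = 0 := by simpa using h3
      rw [h5, zero_pow two_ne_zero] at hxy
      have hsq := (hι.map τ).sqf
      rw [← eval_map] at hxy h4
      rw [← derivative_map] at h4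
      obtain ⟨D1, hD1⟩ := dvd_iff_isRoot.2 (show ((D.map ι).map τ).IsRoot x from hxy.symm)
      have h6 : (X - C x) * (X - C x) ∣ (D.map ι).map τ := by
        rw [hD1]
        refine mul_dvd_mul_left _ ?_
        rw [dvd_iff_isRoot]
        rw [hD1, derivative_mul] at h4
        simpa using h4
      exact Polynomial.not_isUnit_X_sub_C x (hsq _ h6)
    · intro M _ _ _
      have hdom := isDomain_HRing hι.sqf (by rw [hι.degD]; omega)
      have hinj : Function.Injective (algebraMap (HRing (D.map ι)) M) :=
        IsFractionRing.injective _ _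
      have hne : algebraMap (HRing (D.map ι)) M (hDel (D.map ι) b) ≠ 0 := by
        rw [Ne, map_eq_zero_iff _ hinj]
        exact hDel_ne_zero b
      refine ⟨liftH (algebraMap (HRing (D.map ι)) M) hne, fun a => liftH_toH _ _ _,
        fun i => sy_unramified b hι.eqP hι.eqA hι.degA hι.intP hι.intA h0 ?_ ?_ ?_ ?_ ?_ ?_ _⟩
      · rw [h2]
        exact hspb i
      · rw [h1]
        exact hspβ i
      · rw [h2]
        exact (hbu i).1
      · rw [h2]
        exact (hbu i).2
      · rw [h1]
        exact hβu.1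
      · rw [h1]
        exact hβu.2
    · refine ⟨fun l => mkH (γ' l) (hoff' l), fun l θ => ⟨fun c => ?_, ?_, ?_⟩, ?_⟩
      · rw [mkH_e, HPt.evA_hcst]
      · rw [mkH_e, HPt.evA_toH, HPt.evB_hpol, eval₂_X, hγ']
      · rw [mkH_e, HPt.evA_toH, HPt.evB_hy, hγ']
      · have h3 : (fun (i : Fin m) (l : Fin m) => (mkH (γ' l) (hoff' l)).reg
            (sy b hι.eqP hι.eqA h0 (p i) (q i) i.succ.succ 1)) =
            fun (i : Fin m) (l : Fin m) =>
            (p i : ℝ) * ((γ l).rho (P.map σ) (Q.map σ) (s (b' i)) -
              (γ l).rho (P.map σ) (Q.map σ) (s β)) +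
            (q i : ℝ) * (rhoU (A.map σ) (B.map σ) k (γ l) (s (b' i)) -
              rhoU (A.map σ) (B.map σ) k (γ l) (s β)) := by
          funext i l
          rw [reg_sy hι.eqP hp hι.eqA h0 hu (γ' l) (hoff' l) (hbi0 i) (by rw [h1]; exact hβ0),
            h1, h2, hγ']
          unfold Lp.rho Lp.z rhoU zU
          simp only [hmap]
        have h4 := hli
        rw [← h3] at h4
        exact h4

end Pool.Agent.Results.MP_4a177b_nt.TwoTorsionPairs
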